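import Mathlib
import Pool.Agent.SB.Glob

set_option autoImplicit false

open Set Metric Filter Topology
open Pool.Agent.H87Star (IsGauge)
open Pool.Agent.SB
open scoped Polynomial

/-! Step 3 of the hyperplane theorem: if even powers `f ^ (2m)` and `f ^ (2m+2)` of a gauge are
polynomial along all lines, then `f ^ 2` is a positive definite quadratic form. -/

namespace Pool.Agent.H73

/-- One variable: if `F ^ (2m)` and `F ^ (2m+2)` are polynomials then so is `F ^ 2`. -/
theorem sq_poly_of_pow {m : ℕ} (hm : 0 < m) (F : ℝ → ℝ) (p r : ℝ[X])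
    (hp : ∀ t, F t ^ (2 * m) = p.eval t) (hr : ∀ t, F t ^ (2 * m + 2) = r.eval t) :
    ∃ g : ℝ[X], ∀ t, F t ^ 2 = g.eval t := by
  by_cases hne : p = 0
  · refine ⟨0, fun t => ?_⟩
    have h := hp t
    rw [hne, Polynomial.eval_zero] at h
    have h0 : F t = 0 := pow_eq_zero_iff (by omega : 2 * m ≠ 0) |>.1 h
    rw [h0, Polynomial.eval_zero]
    norm_num
  have h1 : r ^ m = p ^ (m + 1) := by
    apply Polynomial.funext
    intro t
    rw [Polynomial.eval_pow, Polynomial.eval_pow, ← hp, ← hr, ← pow_mul, ← pow_mul]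
    congr 1
    ring
  have h2 : p ^ m ∣ r ^ m := ⟨p, by rw [h1, pow_succ]⟩
  have h3 : p ∣ r := (UniqueFactorizationMonoid.pow_dvd_pow_iff_dvd hm.ne').1 h2
  obtain ⟨g, hg⟩ := h3
  have h4 : g ^ m = p := by
    have h5 : p ^ m * g ^ m = p ^ m * p := by
      rw [← mul_pow, ← hg, h1, pow_succ]
    exact mul_left_cancel₀ (pow_ne_zero _ hne) h5
  refine ⟨g, fun t => ?_⟩
  by_cases h : F t = 0
  · have h6 := hp t
    rw [h, zero_pow (by omega : 2 * m ≠ 0), ← h4, Polynomial.eval_pow] at h6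
    have h7 : g.eval t = 0 := pow_eq_zero_iff hm.ne' |>.1 h6.symm
    rw [h, h7]
    norm_num
  · have h6 : p.eval t * g.eval t = r.eval t := by rw [← Polynomial.eval_mul, ← hg]
    rw [← hp, ← hr, pow_add] at h6
    exact (mul_left_cancel₀ (pow_ne_zero _ h) h6).symm

/-- The pointwise limit of polynomial functions of bounded degree is a polynomial function. -/
theorem poly_limit (d : ℕ) (p : ℕ → ℝ[X]) (hd : ∀ i, (p i).natDegree ≤ d) (g : ℝ → ℝ)
    (hlim : ∀ t, Tendsto (fun i => (p i).eval t) atTop (𝓝 (g t))) :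
    ∃ q : ℝ[X], q.natDegree ≤ d ∧ ∀ t, g t = q.eval t := by
  classical
  let s : Finset ℕ := Finset.range (d + 1)
  let v : ℕ → ℝ := fun i => (i : ℝ)
  have hv : Set.InjOn v s := fun a _ b _ h => Nat.cast_injective h
  have hi : ∀ q : ℝ[X], q.natDegree ≤ d → q = Lagrange.interpolate s v fun i => q.eval (v i) := by
    intro q hq
    refine Lagrange.eq_interpolate hv ?_
    refine lt_of_le_of_lt Polynomial.degree_le_natDegree ?_
    rw [Finset.card_range]
    exact_mod_cast Nat.lt_succ_of_le hq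
  refine ⟨Lagrange.interpolate s v fun i => g (v i), ?_, fun t => ?_⟩
  · have h1 := Lagrange.degree_interpolate_le (r := fun i => g (v i)) hv
    rw [Finset.card_range, Nat.add_sub_cancel] at h1
    exact Polynomial.natDegree_le_of_degree_le h1
  · have h2 : Tendsto (fun i => (p i).eval t) atTop
        (𝓝 ((Lagrange.interpolate s v fun i => g (v i)).eval t)) := by
      have h3 : ∀ i, (p i).eval t =
          ∑ j ∈ s, (p i).eval (v j) * (Lagrange.basis s v j).eval t := by
        intro i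
        conv_lhs => rw [hi (p i) (hd i)]
        rw [Lagrange.interpolate_apply, Polynomial.eval_finsetSum]
        refine Finset.sum_congr rfl fun j _ => ?_
        rw [Polynomial.eval_mul, Polynomial.eval_C]
      have h4 : (Lagrange.interpolate s v fun i => g (v i)).eval t =
          ∑ j ∈ s, g (v j) * (Lagrange.basis s v j).eval t := by
        rw [Lagrange.interpolate_apply, Polynomial.eval_finsetSum]
        refine Finset.sum_congr rfl fun j _ => ?_
        rw [Polynomial.eval_mul, Polynomial.eval_C]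
      rw [h4]
      simp_rw [h3]
      exact tendsto_finsetSum _ fun j _ => (hlim (v j)).mul_const _
    exact tendsto_nhds_unique (hlim t) h2

/-- A gauge whose square is polynomial on lines: its square is quadratic on every line, with
leading coefficient the square of the gauge of the direction. -/
theorem line_quad {k : ℕ} {f : E k → ℝ} (hf : IsGauge f)
    (hg : ∀ x y : E k, ∃ g : ℝ[X], ∀ t : ℝ, f (x + t • y) ^ 2 = g.eval t) (x y : E k) :
    ∃ b : ℝ, ∀ t : ℝ, f (x + t • y) ^ 2 = f x ^ 2 + b * t + f y ^ 2 * t ^ 2 := by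
  obtain ⟨g, hg1⟩ := hg x y
  obtain ⟨h, hh1⟩ := hg y x
  have key : ∀ t : ℝ, 0 < t → g.eval t = t ^ 2 * h.eval (t⁻¹) := by
    intro t ht
    rw [← hg1, ← hh1, ← mul_pow, ← hf.hom t ht.le, smul_add, smul_smul, mul_inv_cancel₀ ht.ne',
      one_smul, add_comm]
  have hlim : Tendsto (fun t : ℝ => g.eval t / (Polynomial.X ^ 2 : ℝ[X]).eval t) atTop
      (𝓝 (h.eval 0)) := by
    have h1 : Tendsto (fun t : ℝ => h.eval (t⁻¹)) atTop (𝓝 (h.eval 0)) :=
      (h.continuous.tendsto 0).comp tendsto_inv_atTop_zero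
    refine h1.congr' ?_
    filter_upwards [eventually_gt_atTop 0] with t ht
    rw [key t ht, Polynomial.eval_pow, Polynomial.eval_X]
    field_simp
  have hdeg : g.degree ≤ 2 := by
    by_contra hc
    push Not at hc
    have h2 := Polynomial.abs_div_tendsto_atTop_atTop_of_degree_gt g (Polynomial.X ^ 2)
      (by rw [Polynomial.degree_X_pow]; exact hc) (pow_ne_zero _ Polynomial.X_ne_zero)
    exact not_tendsto_atTop_of_tendsto_nhds hlim.abs h2
  have hnat : g.natDegree ≤ 2 := Polynomial.natDegree_le_of_degree_le hdeg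
  have hform : ∀ t : ℝ, g.eval t = g.coeff 0 + g.coeff 1 * t + g.coeff 2 * t ^ 2 := by
    intro t
    rw [Polynomial.eval_eq_sum_range' (Nat.lt_succ_of_le hnat) t, Finset.sum_range_succ,
      Finset.sum_range_succ, Finset.sum_range_one]
    ring
  have h0 : g.coeff 0 = f x ^ 2 := by
    have h1 := hg1 0
    rw [hform 0, zero_smul, add_zero] at h1
    rw [h1]
    ring
  have h2 : g.coeff 2 = f y ^ 2 := by
    have h3 : h.eval 0 = f y ^ 2 := by rw [← hh1 0, zero_smul, add_zero]
    rw [← h3]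
    have h4 : Tendsto (fun t : ℝ => g.eval t / (Polynomial.X ^ 2 : ℝ[X]).eval t) atTop
        (𝓝 (g.coeff 0 * (0 * 0) + g.coeff 1 * 0 + g.coeff 2)) := by
      have h5 : Tendsto (fun t : ℝ => g.coeff 0 * (t⁻¹ * t⁻¹) + g.coeff 1 * t⁻¹ + g.coeff 2) atTop
          (𝓝 (g.coeff 0 * (0 * 0) + g.coeff 1 * 0 + g.coeff 2)) :=
        (((tendsto_inv_atTop_zero.mul tendsto_inv_atTop_zero).const_mul _).add
          (tendsto_inv_atTop_zero.const_mul _)).add_const _
      refine h5.congr' ?_
      filter_upwards [eventually_gt_atTop 0] with t ht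
      rw [hform t, Polynomial.eval_pow, Polynomial.eval_X]
      field_simp
    have h6 := tendsto_nhds_unique h4 hlim
    linarith
  refine ⟨g.coeff 1, fun t => ?_⟩
  rw [hg1, hform, h0, h2]

/-- A gauge whose square is polynomial on lines is the square root of a quadratic form. -/
theorem form_of_line {k : ℕ} {f : E k → ℝ} (hf : IsGauge f)
    (hg : ∀ x y : E k, ∃ g : ℝ[X], ∀ t : ℝ, f (x + t • y) ^ 2 = g.eval t) :
    ∃ b : E k →ₗ[ℝ] E k →ₗ[ℝ] ℝ, (∀ v w, b v w = b w v) ∧ ∀ v, f v ^ 2 = b v v := by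
  have hl := line_quad hf hg
  obtain ⟨q, hq⟩ : ∃ q : E k → ℝ, ∀ v, q v = f v ^ 2 := ⟨_, fun _ => rfl⟩
  have hf0 : f 0 = 0 := hf.zero
  have q0 : q 0 = 0 := by rw [hq, hf0]; norm_num
  have qhom : ∀ (t : ℝ) v, q (t • v) = t ^ 2 * q v := by
    intro t v
    obtain ⟨b, hb⟩ := hl 0 v
    have h1 := hb 1
    have h2 := hb t
    rw [zero_add, one_smul, hf0] at h1
    rw [zero_add, hf0] at h2
    have h3 : b = 0 := by linarith
    rw [hq, hq, h2, h3]
    ring
  have hl2 : ∀ v w, ∃ b : ℝ, ∀ t : ℝ, q (v + t • w) = q v + b * t + q w * t ^ 2 := by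
    intro v w
    obtain ⟨b, hb⟩ := hl v w
    refine ⟨b, fun t => ?_⟩
    rw [hq, hq, hq, hb]
  have par : ∀ v w, q (v + w) + q (v - w) = 2 * q v + 2 * q w := by
    intro v w
    obtain ⟨b, hb⟩ := hl2 v w
    have h1 := hb 1
    have h2 := hb (-1)
    rw [one_smul] at h1
    rw [neg_one_smul, ← sub_eq_add_neg] at h2
    rw [h1, h2]
    ring
  have Bsmul : ∀ (t : ℝ) v w, q (t • v + w) - q (t • v) - q w = t * (q (v + w) - q v - q w) := by
    intro t v w
    obtain ⟨b, hb⟩ := hl2 w v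
    have h1 := hb 1
    have h2 := hb t
    rw [one_smul, add_comm] at h1
    rw [add_comm] at h2
    rw [h1, h2, qhom]
    ring
  have three : ∀ v u w, q (v + u + w) + q v + q u + q w = q (v + u) + q (v + w) + q (u + w) := by
    intro v u w
    have p1 := par (v + u) w
    have p2 := par (v + w) u
    have p3 := par (u + w) v
    have p4 := par v (u - w)
    have p5 := par u (w - v)
    have p6 := par w (v - u)
    have p7 := par u w
    have p8 := par w v
    have p9 := par v u
    have e1 : v + w + u = v + u + w := by abel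
    have e2 : u + w + v = v + u + w := by abel
    have e3 : v + (u - w) = v + u - w := by abel
    have e4 : v - (u - w) = v + w - u := by abel
    have e5 : u + (w - v) = u + w - v := by abel
    have e6 : u - (w - v) = v + u - w := by abel
    have e7 : w + (v - u) = v + w - u := by abel
    have e8 : w - (v - u) = u + w - v := by abel
    have e9 : w + v = v + w := by abel
    rw [e1] at p2
    rw [e2] at p3
    rw [e3, e4] at p4
    rw [e5, e6] at p5
    rw [e7, e8] at p6
    rw [e9] at p8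
    linarith
  obtain ⟨B, hB⟩ : ∃ B : E k → E k → ℝ, ∀ v w, B v w = (q (v + w) - q v - q w) / 2 :=
    ⟨_, fun _ _ => rfl⟩
  have Bcomm : ∀ v w, B v w = B w v := by
    intro v w
    rw [hB, hB, add_comm w v]
    ring
  have Badd : ∀ v u w, B (v + u) w = B v w + B u w := by
    intro v u w
    rw [hB, hB, hB]
    have := three v u w
    linarith
  have Bsm : ∀ (t : ℝ) v w, B (t • v) w = t * B v w := by
    intro t v w
    rw [hB, hB, Bsmul]
    ring
  let b : E k →ₗ[ℝ] E k →ₗ[ℝ] ℝ := LinearMap.mk₂ ℝ B Badd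
    (fun t v w => by rw [Bsm, smul_eq_mul])
    (fun v w z => by rw [Bcomm, Badd, Bcomm w v, Bcomm z v])
    (fun t v w => by rw [Bcomm, Bsm, Bcomm w v, smul_eq_mul])
  have hbB : ∀ v w, b v w = B v w := fun v w => rfl
  refine ⟨b, fun v w => by rw [hbB, hbB, Bcomm], fun v => ?_⟩
  rw [hbB, hB, ← hq]
  have h1 := par v v
  rw [sub_self, q0] at h1
  linarith

/-- **Step 3.** If `f ^ (2m)` and `f ^ (2m+2)` are polynomials along all lines, then the square of
the gauge `f` is a quadratic form. -/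
theorem form_of_poly {k m : ℕ} (hm : 0 < m) {f : E k → ℝ} (hf : IsGauge f)
    (hp : ∀ x y : E k, ∃ p : ℝ[X], ∀ t : ℝ, f (x + t • y) ^ (2 * m) = p.eval t)
    (hr : ∀ x y : E k, ∃ r : ℝ[X], ∀ t : ℝ, f (x + t • y) ^ (2 * m + 2) = r.eval t) :
    ∃ b : E k →ₗ[ℝ] E k →ₗ[ℝ] ℝ, (∀ v w, b v w = b w v) ∧ ∀ v, f v ^ 2 = b v v := by
  refine form_of_line hf fun x y => ?_
  obtain ⟨p, hp⟩ := hp x y
  obtain ⟨r, hr⟩ := hr x y
  exact sq_poly_of_pow hm (fun t => f (x + t • y)) p r hp hr

/-- The square of a gauge being a quadratic form, the gauge is the norm in another frame. -/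
theorem equiv_of_form {k : ℕ} {f : E k → ℝ} (hf : IsGauge f)
    (hb : ∃ b : E k →ₗ[ℝ] E k →ₗ[ℝ] ℝ, (∀ v w, b v w = b w v) ∧ ∀ v, f v ^ 2 = b v v) :
    ∃ A : E k ≃ₗ[ℝ] E k, ∀ v, f v = ‖A v‖ := by
  obtain ⟨b, hs, hb⟩ := hb
  obtain ⟨A, hA⟩ := Pool.Agent.H87Star.exists_equiv_of_form b hs fun v hv => by
    rw [← hb]
    exact pow_pos (hf.pos v hv) 2
  refine ⟨A.symm, fun v => ?_⟩
  have h0 : 0 ≤ f v := by
    by_cases hv : v = 0
    · rw [hv, hf.zero]
    · exact (hf.pos v hv).le
  have h1 : f v ^ 2 = ‖A.symm v‖ ^ 2 := by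
    rw [← hA, hb, LinearEquiv.apply_symm_apply]
  exact (pow_left_inj₀ h0 (norm_nonneg _) two_ne_zero).1 h1

/-- If all `k`-dimensional central sections of a star body have a quadratic squared gauge, the
body is an ellipsoid. -/
theorem ellipsoid_of_quad {n k : ℕ} (hk : 2 ≤ k) (hn : k ≤ n) {F : E n → ℝ} (hF : IsGauge F)
    (hq : ∀ e : E k →L[ℝ] E n, Iso e →
      ∃ b : E k →ₗ[ℝ] E k →ₗ[ℝ] ℝ, (∀ v w, b v w = b w v) ∧ ∀ v, F (e v) ^ 2 = b v v) :
    ∃ A : E n ≃ᵃ[ℝ] E n, {x | F x ≤ 1} = A '' Metric.closedBall 0 1 := by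
  refine ellipsoid_of_sections hk hn hF fun e he => ?_
  obtain ⟨b, hb, hb2⟩ := hq e he
  have h0 : ∀ v, 0 ≤ F v := by
    intro v
    by_cases hv : v = 0
    · rw [hv, hF.zero]
    · exact (hF.pos v hv).le
  have h1 : ∀ v, F (e (-v)) = F (e v) := by
    intro v
    refine (pow_left_inj₀ (h0 _) (h0 _) two_ne_zero).1 ?_
    rw [hb2, hb2, map_neg, map_neg, LinearMap.neg_apply, neg_neg]
  refine ⟨b, 0, hb, fun v => ?_, fun v => ?_⟩
  · rw [h1, ← hb2, pow_two]
  · rw [h1, sub_self, LinearMap.zero_apply]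

end Pool.Agent.H73
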